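import Pool.Agent.MP_1a6d78_lc.GM.ElimT
import Pool.Agent.MP_1a6d78_lc.GM.RecC
import Pool.Agent.MP_1a6d78_lc.SC.ElimF

/-! The chain of levels with stored seeds as a plain function, with a parameter. -/

namespace Pool.Agent.MP_1a6d78_lc.GE

open Function ED SC SC.El GM

/-- The list without its head, cut or padded to length `k`. -/
def tlk (k : ℕ) (L : List ℕ) : List ℕ := tab k fun i => gt L (i + 1)

/-- `a :: l`, cut or padded to length `k + 1`, entries cut at `b`. -/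
def cns (k b a : ℕ) (l : List ℕ) : List ℕ :=
  tab (k + 1) fun i => min b (if i = 0 then a else gt l (i - 1))

theorem cns_zero (k b a : ℕ) (l : List ℕ) : gt (cns k b a l) 0 = min b a := by
  rw [cns, gt_tab _ (Nat.succ_pos k), if_pos rfl]

theorem tlk_cns (k b a : ℕ) (l : List ℕ) : tlk k (cns k b a l) = clip k b l :=
  Et.tab_congr fun i hi => by
    rw [cns, gt_tab _ (by omega), if_neg (by omega), Nat.add_sub_cancel]

theorem clip_zero {k : ℕ} (b : ℕ) (l : List ℕ) (h : 0 < k) : gt (clip k b l) 0 = min b (gt l 0) :=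
  gt_tab _ h

theorem tlk_clip {k m : ℕ} (b : ℕ) (l : List ℕ) (h : k + 1 ≤ m) :
    tlk k (clip m b l) = clip k b (tlk k l) :=
  Et.tab_congr fun i hi => by rw [clip, gt_tab _ (by omega), tlk, gt_tab _ hi]

theorem clip_clip (k b : ℕ) (l : List ℕ) : clip k b (clip k b l) = clip k b l := Et.clip_tab _ _ _

theorem hd_gt (l : List ℕ) : hd l = gt l 0 := by cases l <;> rfl

variable {κ k β : List Bool → ℕ}

theorem tlkC (h : ∀ x, k x ≤ κ x) (hk : Cn κ fun x _ => k x) (i : ℕ) :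
    Cm κ fun x ρ => tlk (k x) (ρ i) :=
  (kitOne κ).tab (fun _ ρ e => gt (ρ i) (e + 1)) h hk
    (PR.K.gt (PR.K.vL (i + 1)) (PR.K.add (PR.K.v 0) (PR.K.c 1)))

theorem cnsC (h : ∀ x, k x + 1 ≤ κ x) (hk : Cn κ fun x _ => k x) (hβ : Cn κ fun x _ => β x)
    {a : List Bool → Env → ℕ} (ha : Cn κ a) (i : ℕ) :
    Cm κ fun x ρ => cns (k x) (β x) (a x ρ) (ρ i) :=
  (kitA κ).bind _ _ ha ((kitOne κ).tab
    (fun x ρ e => min (β x) (if e = 0 then hd (ρ 0) else gt (ρ (i + 1)) (e - 1))) h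
    (PR.K.add hk (PR.K.c 1)) (PR.K.min hβ (PR.K.ite (PR.K.eq (PR.K.v 0) (PR.K.c 0)) (PR.K.v 1)
      (PR.K.gt (PR.K.vL (i + 2)) (PR.K.sub (PR.K.v 0) (PR.K.c 1))))))

/-- The oracle is replaced by a function of the plain calculus. -/
theorem subR (κ0 k β : List Bool → ℕ) (G : List Bool → List ℕ → ℕ)
    (A : List Bool → Orc → List ℕ → ℕ) (e : ℕ) (h : ∀ x, k x + 1 ≤ κ0 x)
    (hA : Nq κ0 β β fun x g ρ => A x g (ρ 0)) (hG : Cn κ0 fun x ρ => G x (ρ 0))
    (he : ∀ x, β x ≤ (x.length + 2) ^ e) (h1 : ∀ x, 1 ≤ β x)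
    (ck : ∀ κ, Cn κ fun x _ => k x) (cβ : ∀ κ, Cn κ fun x _ => β x)
    (c0 : ∀ κ, Cn κ fun x _ => κ0 x) :
    ∃ E : ℕ, ∀ κ : List Bool → ℕ, (∀ x, E * (κ0 x + 1) ≤ κ x) →
      Cn κ fun x ρ => min (β x) (A x (fun l => min (β x) (G x (clip (k x) (β x) l)))
        (clip (k x) (β x) (ρ 0))) := by
  have hk : ∀ x, k x ≤ κ0 x := fun x => by have := h x; omega
  obtain ⟨F, eF⟩ : ∃ F : List Bool → Orc → List ℕ → ℕ, F = fun x g L => min (β x)
      (if gt L 0 = 0 then G x (tlk (k x) L)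
        else A x (fun l => g (cns (k x) (β x) 0 l)) (tlk (k x) L)) := ⟨_, rfl⟩
  have hF : Nq κ0 β β fun x g ρ => F x g (ρ 0) := by
    rw [eF]
    exact Q.min (Q.lift (cβ _)) (Q.ite (Q.eq (Q.gt (Q.vL 0) (Q.c 0)) (Q.c 0))
      (Q.lift ((kitA κ0).bind _ _ (tlkC hk (ck _) 0) hG))
      (M.bind _ _ (Q.liftL (tlkC hk (ck _) 0)) (M.bind _ _ (Q.c 0)
        (osub (fun x l _ => cns (k x) (β x) 0 l) (cnsC h (ck _) (cβ _) (PR.K.c 0) 0)
          (fun _ _ _ => Et.tab_le _) hA))))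
  obtain ⟨E, hE⟩ := recC κ0 β β (fun _ => 2) F (2 * e + 4) hF
    (fun x g l => by rw [eF]; exact min_le_left _ _) (fun x => by have := h x; omega) fun x => by
      have a := he x
      have b : (x.length + 2) ^ e ≤ (x.length + 2) ^ (2 * e + 4) :=
        Nat.pow_le_pow_right (by omega) (by omega)
      refine ⟨a.trans b, a.trans b, ?_⟩
      have c : 1 ≤ (x.length + 2) ^ e := Nat.one_le_pow _ _ (by omega)
      have d : (x.length + 2) ^ (2 * e + 4) =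
          ((x.length + 2) ^ e * (x.length + 2) ^ 2) ^ 2 := by ring
      rw [d]
      refine Nat.pow_le_pow_left ?_ 2
      have f : 2 ^ 2 ≤ (x.length + 2) ^ 2 := Nat.pow_le_pow_left (by omega) 2
      nlinarith
  refine ⟨3 * E + 1, fun κ hκ => ?_⟩
  have k1 : ∀ x, κ0 x + 1 ≤ κ x := fun x => le_trans (by nlinarith) (hκ x)
  have r := hE κ (fun x => le_trans (by nlinarith) (hκ x)) (PR.K.c 2) (c0 _) (cβ _)
  refine PR.K.cg ((kitA κ).bind _ _ (cnsC (k := k) (β := β)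
    (fun x => by have := h x; have := k1 x; omega) (ck _) (cβ _) (PR.K.c 1) 0) r) fun x ρ => ?_
  have p0 : 0 < κ0 x := by have := h x; omega
  have u : gt (clip (κ0 x) (β x) (cns (k x) (β x) 1 (ρ 0))) 0 ≠ 0 := by
    rw [clip_zero _ _ p0, cns_zero]
    have := h1 x
    omega
  show rc (F x) 2 (clip (κ0 x) (β x) (cns (k x) (β x) 1 (ρ 0))) = _
  rw [eF]
  simp only [rc, if_neg u, cns_zero, Nat.min_zero, if_true, tlk_cns, tlk_clip _ _ (h x), clip_clip]

/-- The recursion that carries the parameter at the head of its argument. -/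
theorem rc_par {r k b : ℕ} (base : List ℕ → ℕ) (step : ℕ → ℕ → ℕ → Orc → List ℕ → ℕ) (p : ℕ)
    (hp : p ≤ b) : ∀ (d : ℕ) (L : List ℕ), gt L 0 = p →
      rc (fun g L => body r k b base (step (gt L 0)) (fun T => g (cns k b (gt L 0) T)) (tlk k L))
        d L = rc (body r k b base (step p)) d (tlk k L)
  | 0, _, _ => rfl
  | d + 1, L, h => by
    rw [rc, rc, h, body, body]
    congr 2
    congr 1
    funext l
    rw [rc_par base step p hp d _ (by rw [cns_zero, min_eq_right hp]), tlk_cns, cl, Et.clip_tab]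

/-- ELIMC.  The end of the chain of `J x` levels is a function of the plain calculus; the step has
a parameter (slot 0), makes polynomially many calls in `q` and uses lists of length `k1`. -/
theorem elimC (r e : ℕ) (k1 q β J W : List Bool → ℕ) (base : List Bool → List ℕ → ℕ)
    (step : List Bool → ℕ → ℕ → ℕ → Orc → List ℕ → ℕ) (Φ : List Bool → ℕ → Orc → ℕ)
    (hC : ∀ κ : List Bool → ℕ, (∀ x, r + k1 x ≤ κ x) → (Cn κ fun x ρ => base x (ρ 0)) ∧
      (Nq κ q β fun x g ρ => step x (hd (ρ 0)) (hd (ρ 1)) (hd (ρ 2)) g (ρ 3)) ∧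
      Nq κ β β fun x g ρ => Φ x (hd (ρ 0)) g)
    (ck : ∀ κ, Cn κ fun x _ => k1 x) (cβ : ∀ κ, Cn κ fun x _ => β x)
    (cJ : ∀ κ, Cn κ fun x _ => J x)
    (cW : ∀ κ : List Bool → ℕ, (∀ x, r + k1 x ≤ κ x) → Cn κ fun x _ => W x)
    (he : ∀ x, β x ≤ (x.length + 2) ^ e ∧ q x ≤ (x.length + 2) ^ e ∧
      (q x + 2) ^ (J x + 1) ≤ (x.length + 2) ^ e)
    (h1 : ∀ x, 1 ≤ β x) (hJ : ∀ x, J x ≤ β x) (hW : ∀ x, W x ≤ β x) :
    ∃ E : ℕ, ∀ κ : List Bool → ℕ, (∀ x, E * (k1 x + J x + 1) * (J x + 1) ≤ κ x) →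
      Cn κ fun x ρ => chain r (β x) (W x) (base x) (step x (min (β x) (hd (ρ 0)))) (Φ x) (J x)
        (ρ 1) := by
  obtain ⟨k, ek⟩ : ∃ k : List Bool → ℕ, k = fun x => r + 1 + J x := ⟨_, rfl⟩
  have c1 : ∀ κ, Cn κ fun x _ => k x := fun κ =>
    PR.K.cg (PR.K.add (PR.K.c (r + 1)) (cJ κ)) fun x _ => by rw [ek]
  have vk : ∀ x, k x = r + 1 + J x := fun x => by rw [ek]
  obtain ⟨κa, ea⟩ : ∃ κa : List Bool → ℕ, κa = fun x => k x + k1 x + 1 := ⟨_, rfl⟩
  have va : ∀ x, κa x = k x + k1 x + 1 := fun x => by rw [ea]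
  have c2 : ∀ κ, Cn κ fun x _ => κa x := fun κ =>
    PR.K.cg (PR.K.add (PR.K.add (c1 κ) (ck κ)) (PR.K.c 1)) fun x _ => by rw [ea]
  have a1 : ∀ x, k x ≤ κa x := fun x => by rw [va]; omega
  have a2 : ∀ x, k x + 1 ≤ κa x := fun x => by rw [va]; omega
  obtain ⟨d1, d2, -⟩ := hC κa fun x => by rw [va, vk]; omega
  have ca : Cm κa fun x ρ => arg r (β x) (ρ 0) :=
    (kitOne κa).tab (fun x ρ i => min (β x) (gt (ρ 0) (i + 1)))
      (fun x => by rw [va, vk]; omega)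
      (PR.K.c r) (PR.K.min (cβ _) (PR.K.gt (PR.K.vL 1) (PR.K.add (PR.K.v 0) (PR.K.c 1))))
  have g0 : ∀ i, Nq κa q β fun _ _ ρ => gt (ρ i) 0 := fun i => Q.gt (Q.vL i) (Q.c 0)
  have hB : Nq κa q β fun x g ρ =>
      body r (k x) (β x) (base x) (step x (hd (ρ 1))) g (ρ 0) :=
    Q.min (Q.lift (cβ _)) (Q.ite (Q.eq (g0 0) (Q.c 0)) (Q.lift ((kitA κa).bind _ _ ca d1))
      (M.bind _ _ (Q.liftL ca) (M.bind _ _ (Q.sub (g0 1) (Q.c 1))
        (M.bind _ _ (Q.gt (Q.vL 2) (Q.add (Q.c r) (g0 2))) (M.bind _ _ (Q.v 4)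
          (M.bind _ _ (Et.updC a1 (c1 _) (Q.vL 4) (Q.c 0) (Q.v 2))
            (osub (fun x l S => cl r (k x) (β x) l S) (Et.clC r a1 (c1 _) (cβ _))
              (fun _ _ _ => cl_le _ _ _ _ _) d2)))))))
  obtain ⟨F, eF⟩ : ∃ F : List Bool → Orc → List ℕ → ℕ, F = fun x g L =>
      body r (k x) (β x) (base x) (step x (gt L 0)) (fun T => g (cns (k x) (β x) (gt L 0) T))
        (tlk (k x) L) := ⟨_, rfl⟩
  have hF : Nq κa q β fun x g ρ => F x g (ρ 0) := by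
    rw [eF]
    exact Q.cg (M.bind _ _ (Q.liftL (tlkC a1 (c1 _) 0)) (M.bind _ _ (Q.vL 1)
      (osub (fun x l S => cns (k x) (β x) (hd S) l) (cnsC a2 (c1 _) (cβ _) (PR.K.v 1) 0)
        (fun _ _ _ => Et.tab_le _) hB))) fun x g ρ => by simp only [← hd_gt]; rfl
  obtain ⟨E1, hE⟩ := recC κa q β (fun x => J x + 1) F e hF
    (fun x g l => by rw [eF]; exact min_le_left _ _) (fun x => by rw [va]; omega) he
  obtain ⟨κb, eb⟩ : ∃ κb : List Bool → ℕ, κb = fun x => (E1 + 1) * (κa x + 1) * (J x + 1 + 1) :=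
    ⟨_, rfl⟩
  have vb : ∀ x, κb x = (E1 + 1) * (κa x + 1) * (J x + 1 + 1) := fun x => by rw [eb]
  have c3 : ∀ κ, Cn κ fun x _ => κb x := fun κ =>
    PR.K.cg (PR.K.mul (PR.K.mul (PR.K.c (E1 + 1)) (PR.K.add (c2 κ) (PR.K.c 1)))
      (PR.K.add (PR.K.add (cJ κ) (PR.K.c 1)) (PR.K.c 1))) fun x _ => by rw [eb]
  have b0 : ∀ x, κa x + 1 ≤ κb x := fun x => by
    have : 1 * (κa x + 1) * 1 ≤ (E1 + 1) * (κa x + 1) * (J x + 1 + 1) := by gcongr <;> omega
    rw [vb]; omega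
  have b1 : ∀ x, k x ≤ κb x := fun x => by have := b0 x; have := a1 x; omega
  have b2 : ∀ x, k x + 1 ≤ κb x := fun x => by have := b0 x; have := a1 x; omega
  have cG := hE κb (fun x => by rw [vb]; gcongr; omega) (PR.K.add (cJ _) (PR.K.c 1)) (c2 _) (cβ _)
  have b3 : ∀ x, r + k1 x ≤ κb x := fun x => by have := b0 x; rw [va, vk] at this; omega
  obtain ⟨-, -, d3⟩ := hC κb b3
  have tp : ∀ {S : List Bool → Orc → Env → List ℕ} {j : List Bool → Orc → Env → ℕ},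
      Lq κb β β S → Nq κb β β j → Nq κb β β fun x g ρ => Φ x (j x g ρ)
        fun l => g (cl r (k x) (β x) l (upd (k x) (S x g ρ) 0 (j x g ρ))) := fun hS hj =>
    M.bind _ _ hj (M.bind _ _ (Et.updC b1 (c1 _) (Q.wL hS) (Q.c 0) (Q.v 0))
      (osub (fun x l S => cl r (k x) (β x) l S) (Et.clC r b1 (c1 _) (cβ _))
        (fun _ _ _ => cl_le _ _ _ _ _) d3))
  have hS : Lq κb β β fun x g _ => itr (nxt r (k x) (β x) (W x) (Φ x) g) (tab (k x) fun _ => 0)
      (J x) :=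
    Q.foldL (fun x g _ => nxt r (k x) (β x) (W x) (Φ x) g) (fun x _ _ _ => W x) (Q.lift (cJ _))
      (fun x _ _ => hJ x) (Q.liftL ((kitOne κb).tab (fun _ _ _ => 0) b1 (c1 _) (PR.K.c 0)))
      (Et.updC b1 (c1 _) (Q.vL 0) (Q.add (Q.c (r + 1)) (Q.v 1)) (Q.amin (Q.lift (cW _ b3))
        (fun x _ _ => hW x)
        (tp (Et.updC b1 (c1 _) (Q.vL 1) (Q.add (Q.c (r + 1)) (Q.v 2)) (Q.v 0))
          (Q.add (Q.v 2) (Q.c 1))))) (Q.lift (cW _ b3))
      fun x g _ j S B hS hB a ha => by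
        obtain ⟨e, _, rfl⟩ := List.mem_map.1 ha
        split_ifs
        · exact (amin_le _ _).trans hB
        · rw [gt, List.getD_eq_getElem?_getD]
          rcases k : S[e]? with _ | y
          exacts [Nat.zero_le _, hS y (List.mem_of_getElem? k)]
  have hA0 : Nq κb β β fun x g ρ => g (cl r (k x) (β x) (ρ 0) (upd (k x)
      (itr (nxt r (k x) (β x) (W x) (Φ x) g) (tab (k x) fun _ => 0) (J x)) 0 (J x))) :=
    Q.call (M.bind _ _ (Et.updC b1 (c1 _) hS (Q.c 0) (Q.lift (cJ _)))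
      (M.ren _ (fun i => if i = 0 then 1 else 0) (Q.liftL (Et.clC r b1 (c1 _) (cβ _)))))
      fun _ _ _ => cl_le _ _ _ _ _
  obtain ⟨A, eA⟩ : ∃ A : List Bool → Orc → List ℕ → ℕ, A = fun x g L =>
      g (cns (k x) (β x) (gt L 0) (cl r (k x) (β x) (tlk (k x) L) (upd (k x)
        (itr (nxt r (k x) (β x) (W x) (Φ x) fun T => g (cns (k x) (β x) (gt L 0) T))
          (tab (k x) fun _ => 0) (J x)) 0 (J x)))) := ⟨_, rfl⟩
  have hA : Nq κb β β fun x g ρ => A x g (ρ 0) := by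
    rw [eA]
    exact Q.cg (M.bind _ _ (Q.liftL (tlkC b1 (c1 _) 0)) (M.bind _ _ (Q.vL 1)
      (osub (fun x l S => cns (k x) (β x) (hd S) l) (cnsC b2 (c1 _) (cβ _) (PR.K.v 1) 0)
        (fun _ _ _ => Et.tab_le _) hA0))) fun x g ρ => by simp only [← hd_gt]; rfl
  obtain ⟨E2, hE2⟩ := subR κb κa β (fun x L => rc (F x) (J x + 1) (clip (κa x) (β x) L)) A e b0 hA
    cG (fun x => (he x).1) h1 c2 cβ c3
  refine ⟨(E2 + 1) * ((E1 + 1) * (r + 3) * 2 + 1), fun κ hκ => ?_⟩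
  have k5 : ∀ x, (E2 + 1) * (κb x + 1) ≤ κ x := fun x => by
    refine le_trans ?_ (hκ x)
    have u : κa x + 1 ≤ (r + 3) * (k1 x + J x + 1) := by rw [va, vk]; nlinarith
    have v : 1 * 1 ≤ (k1 x + J x + 1) * (J x + 1) := by gcongr <;> omega
    have w : κb x ≤ (E1 + 1) * ((r + 3) * (k1 x + J x + 1)) * (2 * (J x + 1)) := by
      rw [vb]; gcongr; omega
    rw [mul_assoc, mul_assoc]
    exact Nat.mul_le_mul_left _ (by nlinarith)
  have k6 : ∀ x, k x + 1 ≤ κ x := fun x => by have := k5 x; have := b2 x; nlinarith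
  have r1 := hE2 κ fun x => le_trans (by nlinarith) (k5 x)
  refine PR.K.cg ((kitA κ).bind _ _ (cnsC (k := k) (β := β) k6 (c1 _) (cβ _) (PR.K.v 0) 1) r1)
    fun x ρ => ?_
  obtain ⟨p, ep⟩ : ∃ p, p = min (β x) (hd (ρ 0)) := ⟨_, rfl⟩
  have hp : p ≤ β x := by rw [ep]; exact min_le_left _ _
  have p0 : 0 < κa x := by rw [va]; omega
  have u : gt (clip (κa x) (β x) (cns (k x) (β x) (hd (ρ 0)) (ρ 1))) 0 = p := by
    rw [clip_zero _ _ p0, cns_zero, ← ep, min_eq_right hp]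
  have o : ∀ T, min (β x) (rc (F x) (J x + 1) (clip (κa x) (β x)
      (cns (k x) (β x) p T))) = rc (body r (k x) (β x) (base x) (step x p)) (J x + 1)
        (clip (k x) (β x) T) := fun T => by
    rw [eF, rc_par (base x) (step x) p hp _ _ (by
      rw [clip_zero _ _ p0, cns_zero, min_eq_right hp, min_eq_right hp]), tlk_clip _ _ (a2 x),
      tlk_cns, clip_clip]
    exact min_eq_right (min_le_left _ _)
  have R := (runF (Φ := Φ x) (base := base x) (step := step x p) (D := J x + 1) (κ := k x)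
    (J := J x) (Nat.lt_succ_self _) (hJ x) (vk x).ge (hW x) _ _ rfl rfl _ le_rfl).2
  have eN : nxt r (k x) (β x) (W x) (Φ x) (fun T => rc (body r (k x) (β x) (base x) (step x p))
      (J x + 1) (clip (k x) (β x) T)) = nxt r (k x) (β x) (W x) (Φ x)
        (rc (body r (k x) (β x) (base x) (step x p)) (J x + 1)) := by
    funext j S
    simp only [nxt, cl, Et.clip_tab]
  rw [← ep, ← R]
  show min (β x) (A x _ (clip (κa x) (β x) (cns (k x) (β x) (hd (ρ 0)) (ρ 1)))) = _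
  rw [eA]
  simp only [u, clip_clip, o, eN, tlk_clip _ _ (a2 x), tlk_cns]
  rw [cl, Et.clip_tab, min_eq_right (Rec.rc_le (F := body r (k x) (β x) (base x) (step x p))
    (fun _ _ => min_le_left _ _) _ _), cl]
  congr 1
  refine Et.tab_congr fun i hi => ?_
  split_ifs with h
  · rw [clip, gt_tab _ (by omega), ← min_assoc, min_self]
  · rfl

open Classical in
/-- ITEK.  A function for the size `κ1` runs under a test that forces `κ x = κ1 x`. -/
theorem iteK {κ κ1 : List Bool → ℕ} {f : List Bool → Env → ℕ} {P : List Bool → Env → Prop}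
    (hf : Cn κ1 f) (hP : PR.Cp κ P) (h : ∀ x ρ, P x ρ → κ x = κ1 x) :
    Cn κ fun x ρ => if P x ρ then f x ρ else 0 := by
  obtain ⟨a, f1, f2⟩ := hf
  obtain ⟨c, -, g2⟩ := hP
  obtain ⟨d, -, z2⟩ := PR.K.c (κ := κ) 0
  have tr : ∀ x ρ B, P x ρ → Bd κ x ρ B → Bd κ1 x ρ B := fun x ρ B p hB => by
    unfold Bd at hB ⊢
    rwa [← h x ρ p]
  refine ⟨a + c + d + 5, fun x ρ B hB y hy => ?_, fun ℓ b hℓ => ?_⟩
  · rw [List.mem_singleton.1 hy]
    dsimp only
    split_ifs with p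
    · exact (f1 x ρ B (tr x ρ B p hB) _ (List.mem_singleton.2 rfl)).trans
        (pw_mono le_rfl (by omega))
    · exact Nat.zero_le _
  obtain ⟨p, hp⟩ := g2 ℓ b hℓ
  obtain ⟨q, hq⟩ := f2 ℓ b hℓ
  obtain ⟨z, hz⟩ := z2 ℓ b hℓ
  refine ⟨.seq p (.ite (.nz b) (.seq (clr b) q) (.seq (clr b) z)), fun x σ B hB hσ h0 => ?_⟩
  have a1 := hp x σ B hB hσ h0
  have a2 := ex_clr (x := x) (a1.good hσ) b
  have e : ∀ l, update (update σ b l) b [] = σ := fun l => by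
    rw [update_idem, ← h0 b le_rfl, update_eq_self]
  simp only [e] at a2
  have kB := hB.2.1
  have t0 : pw B 2 = B * B + 4 * B + 4 := by unfold pw; ring
  have t1 : pw B a ≤ pw B (a + c + d + 2) := pw_mono le_rfl (by omega)
  have t2 : pw B c ≤ pw B (a + c + d + 2) := pw_mono le_rfl (by omega)
  have t3 : pw B d ≤ pw B (a + c + d + 2) := pw_mono le_rfl (by omega)
  have t4 : pw B 2 ≤ pw B (a + c + d + 2) := pw_mono le_rfl (by omega)
  have t5 := two_mul_pw B (a + c + d + 2)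
  have t6 := two_mul_pw B (a + c + d + 2 + 1)
  have t7 : pw B (a + c + d + 2 + 1 + 1) ≤ pw B (a + c + d + 5) := pw_mono le_rfl (by omega)
  by_cases k : P x fun i => σ (ℓ i)
  · have a3 := hq x σ B (tr x _ B k hB) (h x _ k ▸ hσ) h0
    rw [← h x _ k] at a3
    simp only [if_pos k] at a1 a2 ⊢
    exact (a1.seq (.iteT (by simp [tst1, hd]) (a2.seq a3))).weak (by omega)
  · have a3 := hz x σ B hB hσ h0
    simp only [if_neg k] at a1 a2 ⊢
    exact (a1.seq (.iteF (by simp [tst1, hd]) (a2.seq a3))).weak (by omega)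

end Pool.Agent.MP_1a6d78_lc.GE
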